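import Pool.Agent.Lib.MP_4ebb14_gt.Hereditary

/-!
# (TAM) and domination of `ℵ₁` many functions
-/

open Set

namespace Pool.Agent.Lib.MP_4ebb14_gt

universe u

/-- In an uncountable set, two different elements have the same value under a map to a countable
type. -/
lemma exists_ne_map_eq_of_uncountable {α : Type*} {β : Type*} [Countable β] {S : Set α}
    (hS : ¬ S.Countable) (τ : α → β) : ∃ a ∈ S, ∃ b ∈ S, a ≠ b ∧ τ a = τ b := by
  by_contra hcon
  push Not at hcon
  apply hS
  have hinj : InjOn τ S := by
    intro a ha b hb hab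
    by_contra hne
    exact hcon a ha b hb hne hab
  exact countable_of_injective_of_countable_image hinj (Set.to_countable _)

/-- Pigeonhole: an uncountable set has an uncountable fibre. -/
lemma exists_uncountable_fiber {α : Type*} {β : Type*} [Countable β] {S : Set α}
    (hS : ¬ S.Countable) (τ : α → β) : ∃ b, ¬ {a ∈ S | τ a = b}.Countable := by
  by_contra hcon
  push Not at hcon
  apply hS
  have : S = ⋃ b, {a ∈ S | τ a = b} := by
    ext a
    simp
  rw [this]
  exact countable_iUnion hcon

section

variable {ι : Type u}

/-- (TAM): an uncountable family of functions `ℕ → ℕ` has an uncountable pointwise bounded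
subfamily. -/
theorem TAM.exists_bounded (hTAM : TAM.{u}) [Uncountable ι] (f : ι → ℕ → ℕ) :
    ∃ A : Set ι, ¬ A.Countable ∧ ∃ h : ℕ → ℕ, ∀ a ∈ A, ∀ k, f a k ≤ h k := by
  classical
  let 𝒦 : Set (Finset ι) := {F | ∀ k, (F.image fun a => f a k).card ≤ k + 1}
  obtain ⟨A, hA, hAK⟩ := hTAM.hereditary (𝒦 := 𝒦)
    (by
      intro F hF G hGF k
      exact (Finset.card_le_card (Finset.image_subset_image hGF)).trans (hF k))
    (by
      intro i k
      simp)
    (by
      intro 𝒮 h𝒮 hunc
      obtain ⟨F, hF, G, hG, hne, hτ⟩ := exists_ne_map_eq_of_uncountable hunc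
        (fun F : Finset ι => (F.card, F.image fun a => (List.range (2 * F.card)).map (f a)))
      refine ⟨F, hF, G, hG, hne, ?_⟩
      have hcard : F.card = G.card := (Prod.ext_iff.mp hτ).1
      have himg : (F.image fun a => (List.range (2 * F.card)).map (f a)) =
          G.image fun a => (List.range (2 * F.card)).map (f a) := by
        have := (Prod.ext_iff.mp hτ).2
        simp only at this
        rw [this, hcard]
      intro k
      by_cases hk : k < 2 * F.card
      · have hsub : ((F ∪ G).image fun a => f a k) ⊆ F.image fun a => f a k := by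
          intro v hv
          obtain ⟨a, ha, rfl⟩ := Finset.mem_image.mp hv
          rcases Finset.mem_union.mp ha with ha | ha
          · exact Finset.mem_image_of_mem _ ha
          · have : (List.range (2 * F.card)).map (f a) ∈
                F.image fun a => (List.range (2 * F.card)).map (f a) := by
              rw [himg]
              exact Finset.mem_image_of_mem _ ha
            obtain ⟨b, hb, hab⟩ := Finset.mem_image.mp this
            have := List.map_inj_left.mp hab k (List.mem_range.mpr hk)
            rw [← this]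
            exact Finset.mem_image_of_mem _ hb
        exact (Finset.card_le_card hsub).trans (h𝒮 hF k)
      · calc ((F ∪ G).image fun a => f a k).card ≤ (F ∪ G).card := Finset.card_image_le
          _ ≤ F.card + G.card := Finset.card_union_le _ _
          _ ≤ k + 1 := by omega)
  refine ⟨A, hA, fun k => sSup ((fun a => f a k) '' A), ?_⟩
  intro a ha k
  have hfin : ((fun a => f a k) '' A).Finite := by
    by_contra hinf
    obtain ⟨t, ht, hcard⟩ := Set.Infinite.exists_subset_card_eq hinf (k + 2)
    obtain ⟨F, hF, hFt⟩ := Finset.subset_set_image_iff.mp ht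
    have := hAK F hF k
    rw [hFt, hcard] at this
    omega
  exact le_csSup hfin.bddAbove (mem_image_of_mem _ ha)

/-- Countably many functions are eventually dominated by a single one. -/
lemma exists_dominating_of_countable {J : Type*} {S : Set J} (hS : S.Countable)
    (x : J → ℕ → ℕ) : ∃ f : ℕ → ℕ, ∀ j ∈ S, ∃ m, ∀ k, m ≤ k → x j k ≤ f k := by
  rcases S.eq_empty_or_nonempty with rfl | hne
  · exact ⟨0, by simp⟩
  obtain ⟨e, rfl⟩ := hS.exists_eq_range hne
  refine ⟨fun k => (Finset.range (k + 1)).sup fun i => x (e i) k, ?_⟩
  rintro _ ⟨i, rfl⟩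
  refine ⟨i, fun k hk => ?_⟩
  exact Finset.le_sup (f := fun i => x (e i) k) (Finset.mem_range.mpr (Nat.lt_succ_of_le hk))

/-- (TAM): a family of functions indexed by a union of `ω₁` many increasing countable sets is
eventually dominated by a single function. -/
theorem TAM.exists_dominating (hTAM : TAM.{u}) {Ω : Type u} [Uncountable Ω]
    {J : Type*} (x : J → ℕ → ℕ) (S : Ω → Set J) (hS : ∀ a, (S a).Countable)
    (hcof : ∀ j, {a | j ∉ S a}.Countable) :
    ∃ f : ℕ → ℕ, ∀ j, ∃ m, ∀ k, m ≤ k → x j k ≤ f k := by
  choose g hg using fun a => exists_dominating_of_countable (hS a) x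
  obtain ⟨A, hA, h, hh⟩ := hTAM.exists_bounded g
  refine ⟨h, fun j => ?_⟩
  have : ∃ a ∈ A, j ∈ S a := by
    by_contra hcon
    push Not at hcon
    exact hA ((hcof j).mono fun a ha => hcon a ha)
  obtain ⟨a, ha, hj⟩ := this
  obtain ⟨m, hm⟩ := hg a j hj
  exact ⟨m, fun k hk => (hm k hk).trans (hh a ha k)⟩

end

end Pool.Agent.Lib.MP_4ebb14_gt
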