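import Pool.Agent.Lib.MP_4ebb14_gt.Bounding

/-!
# (TAM) and a caliber type statement along a sequence of open covers
-/

open Set

namespace Pool.Agent.Lib.MP_4ebb14_gt

universe u

section Basic

variable {X : Type u} [TopologicalSpace X]

/-- points whose first `m` coordinates are given by `x` -/
def WW (W : ℕ → ℕ → Set X) (x : ℕ → ℕ) (m : ℕ) : Set X := {z | ∀ k < m, z ∈ W k (x k)}

lemma isOpen_WW {W : ℕ → ℕ → Set X} (hW : ∀ n i, IsOpen (W n i)) (x : ℕ → ℕ) (m : ℕ) :
    IsOpen (WW W x m) := by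
  have : WW W x m = ⋂ k ∈ Finset.range m, W k (x k) := by
    ext z
    simp [WW]
  rw [this]
  exact isOpen_biInter_finset fun k _ => hW k (x k)

omit [TopologicalSpace X] in
lemma WW_congr {W : ℕ → ℕ → Set X} {x y : ℕ → ℕ} {m : ℕ} (h : ∀ k < m, x k = y k) :
    WW W x m = WW W y m := by
  ext z
  constructor
  · intro hz k hk
    rw [← h k hk]
    exact hz k hk
  · intro hz k hk
    rw [h k hk]
    exact hz k hk

omit [TopologicalSpace X] in
lemma WW_anti {W : ℕ → ℕ → Set X} {x : ℕ → ℕ} {m n : ℕ} (h : m ≤ n) : WW W x n ⊆ WW W x m :=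
  fun _ hz k hk => hz k (hk.trans_le h)

/-- A nonempty open set has a guide. -/
lemma exists_guide {W : ℕ → ℕ → Set X} (hW : ∀ n i, IsOpen (W n i))
    (hdense : ∀ n, Dense (⋃ i, W n i)) {U : Set X} (hU : IsOpen U) (hne : U.Nonempty) :
    ∃ g : ℕ → ℕ, ∀ m, (U ∩ WW W g m).Nonempty := by
  classical
  have step : ∀ (n : ℕ) (O : Set X), IsOpen O → O.Nonempty → ∃ i, (O ∩ W n i).Nonempty := by
    intro n O hO hOne
    obtain ⟨z, hzO, hz⟩ := (hdense n).inter_open_nonempty O hO hOne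
    obtain ⟨i, hi⟩ := mem_iUnion.mp hz
    exact ⟨i, z, hzO, hi⟩
  let next : ℕ → Set X → ℕ := fun n O => if h : ∃ i, (O ∩ W n i).Nonempty then h.choose else 0
  let Us : ℕ → Set X := fun m => Nat.rec U (fun n O => O ∩ W n (next n O)) m
  have hnext : ∀ n, IsOpen (Us n) → (Us n).Nonempty → (Us n ∩ W n (next n (Us n))).Nonempty := by
    intro n h1 h2
    have h := step n (Us n) h1 h2
    simp only [next, dif_pos h]
    exact h.choose_spec
  have hUs : ∀ m, IsOpen (Us m) ∧ (Us m).Nonempty ∧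
      Us m = U ∩ WW W (fun n => next n (Us n)) m := by
    intro m
    induction m with
    | zero =>
      refine ⟨hU, hne, ?_⟩
      have : WW W (fun n => next n (Us n)) 0 = univ := by
        ext z
        simp [WW]
      rw [this, inter_univ]
      rfl
    | succ m ih =>
      obtain ⟨h1, h2, h3⟩ := ih
      have hs : Us (m + 1) = Us m ∩ W m (next m (Us m)) := rfl
      refine ⟨?_, ?_, ?_⟩
      · rw [hs]; exact h1.inter (hW _ _)
      · rw [hs]; exact hnext m h1 h2
      · rw [hs]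
        ext z
        constructor
        · rintro ⟨hz1, hz2⟩
          rw [h3] at hz1
          refine ⟨hz1.1, fun k hk => ?_⟩
          rcases Nat.lt_succ_iff_lt_or_eq.mp hk with hk | rfl
          · exact hz1.2 k hk
          · exact hz2
        · rintro ⟨hz1, hz2⟩
          refine ⟨?_, hz2 m (Nat.lt_succ_self m)⟩
          rw [h3]
          exact ⟨hz1, fun k hk => hz2 k (hk.trans (Nat.lt_succ_self m))⟩
  refine ⟨fun n => next n (Us n), fun m => ?_⟩
  rw [← (hUs m).2.2]
  exact (hUs m).2.1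

/-- In a ccc space, among uncountably many nonempty open sets two meet. -/
lemma CCC.exists_inter {α : Type*} (hX : CCC X) {S : Set α} (hS : ¬ S.Countable)
    (O : α → Set X) (hO : ∀ a ∈ S, IsOpen (O a) ∧ (O a).Nonempty) :
    ∃ a ∈ S, ∃ b ∈ S, a ≠ b ∧ (O a ∩ O b).Nonempty := by
  by_contra hcon
  push Not at hcon
  apply hS
  have hinj : InjOn O S := by
    intro a ha b hb hab
    by_contra hne
    have := hcon a ha b hb hne
    rw [← hab, inter_self] at this
    exact (hO a ha).2.ne_empty this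
  refine countable_of_injective_of_countable_image hinj (hX (O '' S) ?_ ?_)
  · rintro _ ⟨a, ha, rfl⟩
    exact hO a ha
  · rintro _ ⟨a, ha, rfl⟩ _ ⟨b, hb, rfl⟩ hab
    have hne : a ≠ b := fun h => hab (by rw [h])
    exact Set.disjoint_iff_inter_eq_empty.mpr (hcon a ha b hb hne)

end Basic

section Main

variable {X : Type u} [TopologicalSpace X] {Ω : Type u}

/-- finite intersections -/
def VF (V : Ω → Set X) (F : Finset Ω) : Set X := {z | ∀ a ∈ F, z ∈ V a}

lemma isOpen_VF {V : Ω → Set X} (hV : ∀ a, IsOpen (V a)) (F : Finset Ω) : IsOpen (VF V F) := by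
  have : VF V F = ⋂ a ∈ F, V a := by
    ext z
    simp [VF]
  rw [this]
  exact isOpen_biInter_finset fun a _ => hV a

/-- good data for a finite set -/
structure Good (V : Ω → Set X) (W : ℕ → ℕ → Set X) (r : Ω → ℕ → Bool) (f : ℕ → ℕ)
    (F : Finset Ω) (ρ : Ω → ℕ → Bool) (x : ℕ → ℕ) : Prop where
  code : ∀ a ∈ F, ∀ i, ρ a (2 * i) = r a i
  ne : ∀ m, (VF V F ∩ WW W x m).Nonempty
  bd : ∀ a ∈ F, ∀ b ∈ F, ∀ N, (∀ p < N, ρ a p = ρ b p) → ρ a N ≠ ρ b N →
    ∀ k < N, x k ≤ max (f k) N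

/-- the hereditary family -/
def KK (V : Ω → Set X) (W : ℕ → ℕ → Set X) (r : Ω → ℕ → Bool) (f : ℕ → ℕ) : Set (Finset Ω) :=
  {F | ∃ ρ x, Good V W r f F ρ x}

/-- the set used for guides -/
def OO (V : Ω → Set X) (W : ℕ → ℕ → Set X) (j : Finset Ω × List ℕ) : Set X :=
  VF V j.1 ∩ WW W (fun k => j.2.getD k 0) j.2.length

omit [TopologicalSpace X] in
lemma OO_eq (V : Ω → Set X) (W : ℕ → ℕ → Set X) (F : Finset Ω) (x : ℕ → ℕ) (n : ℕ) :
    OO V W (F, (List.range n).map x) = VF V F ∩ WW W x n := by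
  have : WW W (fun k => ((List.range n).map x).getD k 0) ((List.range n).map x).length =
      WW W x n := by
    rw [List.length_map, List.length_range]
    apply WW_congr
    intro k hk
    simp [List.getD, hk]
  rw [OO, this]

omit [TopologicalSpace X] in
/-- extending a finite sequence by a guide -/
lemma nonempty_extend {V : Ω → Set X} {W : ℕ → ℕ → Set X} {F : Finset Ω} {x g : ℕ → ℕ} {n : ℕ}
    (hg : ∀ m, ((VF V F ∩ WW W x n) ∩ WW W g m).Nonempty) (m : ℕ) :
    (VF V F ∩ WW W (fun k => if k < n then x k else g k) m).Nonempty := by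
  obtain ⟨z, ⟨hz1, hz2⟩, hz3⟩ := hg m
  refine ⟨z, hz1, fun k hk => ?_⟩
  by_cases h : k < n
  · simp only [h, if_true]; exact hz2 k h
  · simp only [h, if_false]; exact hz3 k hk

/-- data for a finite set, normalised -/
structure Nice (V : Ω → Set X) (W : ℕ → ℕ → Set X) (r : Ω → ℕ → Bool) (f : ℕ → ℕ)
    (F : Finset Ω) (ρ : Ω → ℕ → Bool) (x : ℕ → ℕ) (n : ℕ) : Prop extends
    Good V W r f F ρ x where
  inj : ∀ a ∈ F, ∀ b ∈ F, (∀ p < n, ρ a p = ρ b p) → a = b
  le : ∀ k, x k ≤ max (f k) n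

omit [TopologicalSpace X] in
lemma exists_nice {V : Ω → Set X}
    {W : ℕ → ℕ → Set X}
    {r : Ω → ℕ → Bool} (hr : Function.Injective r) {f : ℕ → ℕ}
    {G : Finset Ω × List ℕ → ℕ → ℕ}
    (hG : ∀ j, (OO V W j).Nonempty → ∀ m, (OO V W j ∩ WW W (G j) m).Nonempty)
    (hf : ∀ j, ∃ m, ∀ k, m ≤ k → G j k ≤ f k) {F : Finset Ω} (hF : F ∈ KK V W r f) :
    ∃ ρ x n, Nice V W r f F ρ x n := by
  classical
  obtain ⟨ρ, x₀, hgood⟩ := hF
  -- a level separating the elements of `F`
  have hsep : ∃ n, ∀ a ∈ F, ∀ b ∈ F, (∀ p < n, ρ a p = ρ b p) → a = b := by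
    have h1 : ∀ q : Ω × Ω, ∃ n, q.1 ∈ F → q.2 ∈ F → (∀ p < n, ρ q.1 p = ρ q.2 p) → q.1 = q.2 := by
      rintro ⟨a, b⟩
      by_cases hab : a = b
      · exact ⟨0, fun _ _ _ => hab⟩
      · have : ∃ i, r a i ≠ r b i := by
          by_contra hcon
          push Not at hcon
          exact hab (hr (funext hcon))
        obtain ⟨i, hi⟩ := this
        refine ⟨2 * i + 1, fun ha hb h => ?_⟩
        exfalso
        apply hi
        rw [← hgood.code a ha i, ← hgood.code b hb i]
        exact h (2 * i) (Nat.lt_succ_self _)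
    choose n hn using h1
    refine ⟨(F ×ˢ F).sup n, fun a ha b hb h => ?_⟩
    refine hn (a, b) ha hb fun p hp => h p (hp.trans_le ?_)
    exact Finset.le_sup (f := n) (Finset.mem_product.mpr ⟨ha, hb⟩)
  obtain ⟨n, hn⟩ := hsep
  let j : Finset Ω × List ℕ := (F, (List.range n).map x₀)
  have hj : OO V W j = VF V F ∩ WW W x₀ n := OO_eq V W F x₀ n
  have hg : ∀ m, ((VF V F ∩ WW W x₀ n) ∩ WW W (G j) m).Nonempty := by
    have := hG j (by rw [hj]; exact hgood.ne n)
    rwa [hj] at this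
  obtain ⟨m, hm⟩ := hf j
  let x : ℕ → ℕ := fun k => if k < n then x₀ k else G j k
  let n' := max n (max m ((Finset.range (max n m)).sup x))
  refine ⟨ρ, x, n', ⟨hgood.code, nonempty_extend hg, ?_⟩, ?_, ?_⟩
  · intro a ha b hb N hN hne k hk
    have hNn : N < n := by
      by_contra hcon
      push Not at hcon
      have := hn a ha b hb fun p hp => hN p (hp.trans_le hcon)
      exact hne (by rw [this])
    have hx : x k = x₀ k := by
      simp only [x, hk.trans hNn, if_true]
    rw [hx]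
    exact hgood.bd a ha b hb N hN hne k hk
  · intro a ha b hb h
    exact hn a ha b hb fun p hp => h p (hp.trans_le (le_max_left _ _))
  · intro k
    by_cases hk : k < max n m
    · have : x k ≤ (Finset.range (max n m)).sup x :=
        Finset.le_sup (f := x) (Finset.mem_range.mpr hk)
      exact this.trans ((le_max_right _ _).trans ((le_max_right _ _).trans (le_max_right _ _)))
    · push Not at hk
      have h1 : n ≤ k := (le_max_left _ _).trans hk
      have h2 : m ≤ k := (le_max_right _ _).trans hk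
      have hx : x k = G j k := by
        simp only [x, not_lt.mpr h1, if_false]
      rw [hx]
      exact (hm k h2).trans (le_max_left _ _)

omit [TopologicalSpace X] in
/-- amalgamation -/
lemma amalgamate [DecidableEq Ω] {V : Ω → Set X}
    {W : ℕ → ℕ → Set X}
    {r : Ω → ℕ → Bool} {f : ℕ → ℕ}
    {G : Finset Ω × List ℕ → ℕ → ℕ}
    (hG : ∀ j, (OO V W j).Nonempty → ∀ m, (OO V W j ∩ WW W (G j) m).Nonempty)
    {F₁ F₂ : Finset Ω} {ρ₁ ρ₂ : Ω → ℕ → Bool} {x₁ x₂ : ℕ → ℕ} {n : ℕ}
    (h₁ : Nice V W r f F₁ ρ₁ x₁ n) (h₂ : Nice V W r f F₂ ρ₂ x₂ n)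
    (hx : ∀ k < n + 1, x₁ k = x₂ k)
    (himg₁ : ∀ a ∈ F₂, ∃ b ∈ F₁, ∀ p < n, ρ₂ a p = ρ₁ b p)
    (hne : ((VF V F₁ ∩ WW W x₁ (n + 1)) ∩ (VF V F₂ ∩ WW W x₂ (n + 1))).Nonempty) :
    F₁ ∪ F₂ ∈ KK V W r f := by
  classical
  let ρ : Ω → ℕ → Bool := fun a p =>
    if a ∈ F₁ then (if p < n then ρ₁ a p else if p % 2 = 0 then r a (p / 2) else false)
    else (if p < n then ρ₂ a p else if p % 2 = 0 then r a (p / 2) else true)
  let j : Finset Ω × List ℕ := (F₁ ∪ F₂, (List.range (n + 1)).map x₁)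
  have hj : OO V W j = VF V (F₁ ∪ F₂) ∩ WW W x₁ (n + 1) := OO_eq V W _ x₁ (n + 1)
  have hjne : (OO V W j).Nonempty := by
    rw [hj]
    obtain ⟨z, ⟨hz1, hz2⟩, hz3, hz4⟩ := hne
    refine ⟨z, fun a ha => ?_, hz2⟩
    rcases Finset.mem_union.mp ha with ha | ha
    · exact hz1 a ha
    · exact hz3 a ha
  have hg : ∀ m, ((VF V (F₁ ∪ F₂) ∩ WW W x₁ (n + 1)) ∩ WW W (G j) m).Nonempty := by
    have := hG j hjne
    rwa [hj] at this
  let x : ℕ → ℕ := fun k => if k < n + 1 then x₁ k else G j k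
  have hx1 : ∀ k, k < n + 1 → x k = x₁ k := fun k hk => by simp only [x, hk, if_true]
  have hρ1 : ∀ a ∈ F₁, ∀ p < n, ρ a p = ρ₁ a p := fun a ha p hp => by
    simp only [ρ, ha, if_true, hp]
  have hρ2 : ∀ a ∉ F₁, ∀ p < n, ρ a p = ρ₂ a p := fun a ha p hp => by
    simp only [ρ, ha, if_false, hp, if_true]
  -- the odd position at which we split
  obtain ⟨p₀, hp₀n, hp₀n', hp₀⟩ : ∃ p₀, n ≤ p₀ ∧ p₀ ≤ n + 1 ∧ p₀ % 2 = 1 := by
    rcases Nat.mod_two_eq_zero_or_one n with h | h
    · exact ⟨n + 1, by omega, le_rfl, by omega⟩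
    · exact ⟨n, le_rfl, by omega, h⟩
  have hρ1' : ∀ a ∈ F₁, ρ a p₀ = false := fun a ha => by
    simp only [ρ, ha, if_true, not_lt.mpr hp₀n, if_false, hp₀]
    simp
  have hρ2' : ∀ a ∉ F₁, ρ a p₀ = true := fun a ha => by
    simp only [ρ, ha, not_lt.mpr hp₀n, if_false, hp₀]
    simp
  -- pairs with one element in `F₁` and the other outside
  have mixed : ∀ a ∈ F₁, ∀ b ∈ F₂, b ∉ F₁ → ∀ N, (∀ p < N, ρ a p = ρ b p) → ρ a N ≠ ρ b N →
      ∀ k < N, x k ≤ max (f k) N := by
    intro a ha b hb hb' N hN hNne k hk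
    have hNle : N ≤ n + 1 := by
      by_contra hcon
      push Not at hcon
      have := hN p₀ (hp₀n'.trans_lt hcon)
      rw [hρ1' a ha, hρ2' b hb'] at this
      exact Bool.false_ne_true this
    rw [hx1 k (hk.trans_le hNle)]
    by_cases hNn : N < n
    · obtain ⟨c, hc, hbc⟩ := himg₁ b hb
      refine h₁.bd a ha c hc N (fun p hp => ?_) ?_ k hk
      · rw [← hρ1 a ha p (hp.trans hNn), hN p hp, hρ2 b hb' p (hp.trans hNn)]
        exact hbc p (hp.trans hNn)
      · intro h
        apply hNne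
        rw [hρ1 a ha N hNn, hρ2 b hb' N hNn, h]
        exact (hbc N hNn).symm
    · push Not at hNn
      exact (h₁.le k).trans (max_le_max le_rfl hNn)
  refine ⟨ρ, x, ?_, nonempty_extend hg, ?_⟩
  · intro a ha i
    by_cases ha1 : a ∈ F₁
    · by_cases hi : 2 * i < n
      · rw [hρ1 a ha1 _ hi]
        exact h₁.code a ha1 i
      · simp only [ρ, ha1, if_true, hi, if_false]
        have h1 : 2 * i % 2 = 0 := by omega
        have h2 : 2 * i / 2 = i := by omega
        simp [h1, h2]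
    · have ha2 : a ∈ F₂ := (Finset.mem_union.mp ha).resolve_left ha1
      by_cases hi : 2 * i < n
      · rw [hρ2 a ha1 _ hi]
        exact h₂.code a ha2 i
      · simp only [ρ, ha1, if_false, hi]
        have h1 : 2 * i % 2 = 0 := by omega
        have h2 : 2 * i / 2 = i := by omega
        simp [h1, h2]
  · intro a ha b hb N hN hNne k hk
    by_cases ha1 : a ∈ F₁
    · by_cases hb1 : b ∈ F₁
      · -- both in `F₁`
        have hNn : N < n := by
          by_contra hcon
          push Not at hcon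
          have : a = b := h₁.inj a ha1 b hb1 fun p hp => by
            rw [← hρ1 a ha1 p hp, ← hρ1 b hb1 p hp]
            exact hN p (hp.trans_le hcon)
          exact hNne (by rw [this])
        rw [hx1 k (by omega)]
        refine h₁.bd a ha1 b hb1 N (fun p hp => ?_) ?_ k hk
        · rw [← hρ1 a ha1 p (hp.trans hNn), ← hρ1 b hb1 p (hp.trans hNn)]
          exact hN p hp
        · rw [← hρ1 a ha1 N hNn, ← hρ1 b hb1 N hNn]
          exact hNne
      · exact mixed a ha1 b ((Finset.mem_union.mp hb).resolve_left hb1) hb1 N hN hNne k hk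
    · have ha2 : a ∈ F₂ := (Finset.mem_union.mp ha).resolve_left ha1
      by_cases hb1 : b ∈ F₁
      · exact mixed b hb1 a ha2 ha1 N (fun p hp => (hN p hp).symm) hNne.symm k hk
      · have hb2 : b ∈ F₂ := (Finset.mem_union.mp hb).resolve_left hb1
        have hNn : N < n := by
          by_contra hcon
          push Not at hcon
          have : a = b := h₂.inj a ha2 b hb2 fun p hp => by
            rw [← hρ2 a ha1 p hp, ← hρ2 b hb1 p hp]
            exact hN p (hp.trans_le hcon)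
          exact hNne (by rw [this])
        rw [hx1 k (by omega), hx k (by omega)]
        refine h₂.bd a ha2 b hb2 N (fun p hp => ?_) ?_ k hk
        · rw [← hρ2 a ha1 p (hp.trans hNn), ← hρ2 b hb1 p (hp.trans hNn)]
          exact hN p hp
        · rw [← hρ2 a ha1 N hNn, ← hρ2 b hb1 N hNn]
          exact hNne

/-- The key combinatorial consequence of (TAM). -/
theorem TAM.caliber (hTAM : TAM.{u}) (hX : CCC X)
    {W : ℕ → ℕ → Set X} (hW : ∀ n i, IsOpen (W n i)) (hdense : ∀ n, Dense (⋃ i, W n i))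
    [Uncountable Ω] {r : Ω → ℕ → Bool} (hr : Function.Injective r)
    (S : Ω → Set (Finset Ω)) (hS : ∀ a, (S a).Countable)
    (hcof : ∀ F, {a | F ∉ S a}.Countable)
    {V : Ω → Set X} (hV : ∀ a, IsOpen (V a)) (hVne : ∀ a, (V a).Nonempty) :
    ∃ A : Set Ω, ¬ A.Countable ∧ ∃ x : ℕ → ℕ,
      ∀ F : Finset Ω, (F : Set Ω) ⊆ A → ∀ m, (VF V F ∩ WW W x m).Nonempty := by
  classical
  -- guides
  have hguide : ∀ j : Finset Ω × List ℕ, ∃ g : ℕ → ℕ, (OO V W j).Nonempty →
      ∀ m, (OO V W j ∩ WW W g m).Nonempty := by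
    intro j
    by_cases h : (OO V W j).Nonempty
    · obtain ⟨g, hg⟩ := exists_guide hW hdense
        ((isOpen_VF hV j.1).inter (isOpen_WW hW _ _)) h
      exact ⟨g, fun _ => hg⟩
    · exact ⟨0, fun h' => absurd h' h⟩
  choose G hG using hguide
  obtain ⟨f, hf⟩ := hTAM.exists_dominating G (fun a => (S a) ×ˢ (univ : Set (List ℕ)))
    (fun a => (hS a).prod (Set.to_countable _)) (by
      rintro ⟨F, u⟩
      refine (hcof F).mono ?_
      intro a ha hFa
      exact ha ⟨hFa, mem_univ _⟩)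
  -- the hereditary family
  have hher : ∀ F ∈ KK V W r f, ∀ F' ⊆ F, F' ∈ KK V W r f := by
    rintro F ⟨ρ, x, h⟩ F' hF'
    refine ⟨ρ, x, fun a ha i => h.code a (hF' ha) i, fun m => ?_, ?_⟩
    · obtain ⟨z, hz1, hz2⟩ := h.ne m
      exact ⟨z, fun a ha => hz1 a (hF' ha), hz2⟩
    · intro a ha b hb
      exact h.bd a (hF' ha) b (hF' hb)
  have hsing : ∀ a, {a} ∈ KK V W r f := by
    intro a
    obtain ⟨g, hg⟩ := exists_guide hW hdense (hV a) (hVne a)
    refine ⟨fun b p => r b (p / 2), g, fun b _ i => by simp, fun m => ?_, ?_⟩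
    · obtain ⟨z, hz1, hz2⟩ := hg m
      refine ⟨z, ?_, hz2⟩
      intro b hb
      rw [Finset.mem_singleton] at hb
      rw [hb]
      exact hz1
    · intro b hb c hc N _ hne
      rw [Finset.mem_singleton] at hb hc
      exact absurd (by rw [hb, hc]) hne
  have hccc : ∀ 𝒮 ⊆ KK V W r f, ¬ 𝒮.Countable →
      ∃ F ∈ 𝒮, ∃ F' ∈ 𝒮, F ≠ F' ∧ F ∪ F' ∈ KK V W r f := by
    intro 𝒮 h𝒮 hunc
    have hnice : ∀ F : Finset Ω, ∃ (ρ : Ω → ℕ → Bool) (x : ℕ → ℕ) (n : ℕ),
        F ∈ 𝒮 → Nice V W r f F ρ x n := by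
      intro F
      by_cases hF : F ∈ 𝒮
      · obtain ⟨ρ, x, n, h⟩ := exists_nice hr hG hf (h𝒮 hF)
        exact ⟨ρ, x, n, fun _ => h⟩
      · exact ⟨fun _ _ => false, 0, 0, fun h => absurd h hF⟩
    choose ρ x n hn using hnice
    obtain ⟨t, ht⟩ := exists_uncountable_fiber hunc
      (fun F : Finset Ω => (n F, (List.range (n F + 1)).map (x F),
        F.image fun a => (List.range (n F)).map (ρ F a)))
    obtain ⟨F, ⟨hF, hFt⟩, F', ⟨hF', hFt'⟩, hne, hinter⟩ := hX.exists_inter ht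
      (fun F => VF V F ∩ WW W (x F) (n F + 1)) (by
        rintro F ⟨hF, -⟩
        exact ⟨(isOpen_VF hV F).inter (isOpen_WW hW _ _), (hn F hF).ne _⟩)
    refine ⟨F, hF, F', hF', hne, ?_⟩
    have heq := hFt.trans hFt'.symm
    simp only [Prod.mk.injEq] at heq
    obtain ⟨e1, e2, e3⟩ := heq
    rw [← e1] at e2 e3 hinter
    have h1 := hn F hF
    have h2 := hn F' hF'
    rw [← e1] at h2
    refine amalgamate hG h1 h2 ?_ ?_ hinter
    · intro k hk
      exact List.map_inj_left.mp e2 k (List.mem_range.mpr hk)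
    · intro a ha
      have : (List.range (n F)).map (ρ F' a) ∈
          F.image fun a => (List.range (n F)).map (ρ F a) := by
        rw [e3]
        exact Finset.mem_image_of_mem _ ha
      obtain ⟨b, hb, hab⟩ := Finset.mem_image.mp this
      exact ⟨b, hb, fun p hp => (List.map_inj_left.mp hab p (List.mem_range.mpr hp)).symm⟩
  obtain ⟨A, hA, hAK⟩ := hTAM.hereditary hher hsing hccc
  refine ⟨A, hA, ?_⟩
  have hAinf : A.Infinite := fun h => hA h.countable
  -- bounds for the coordinates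
  have hbound : ∀ k, ∃ (T : Finset Ω) (N : ℕ), (T : Set Ω) ⊆ A ∧
      ∀ (F : Finset Ω) (ρ : Ω → ℕ → Bool) (x : ℕ → ℕ), T ⊆ F → Good V W r f F ρ x →
        x k ≤ max (f k) N := by
    intro k
    obtain ⟨T, hTA, hTcard⟩ := hAinf.exists_subset_card_eq (2 ^ (k + 1) + 1)
    have hdiff : ∀ q : Ω × Ω, ∃ i, q.1 ≠ q.2 → r q.1 i ≠ r q.2 i := by
      rintro ⟨a, b⟩
      by_cases hab : a = b
      · exact ⟨0, fun h => absurd hab h⟩
      · have : ∃ i, r a i ≠ r b i := by
          by_contra hcon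
          push Not at hcon
          exact hab (hr (funext hcon))
        obtain ⟨i, hi⟩ := this
        exact ⟨i, fun _ => hi⟩
    choose d hd using hdiff
    refine ⟨T, (T ×ˢ T).sup fun q => 2 * d q, hTA, ?_⟩
    intro F ρ x hTF hgood
    obtain ⟨a, ha, b, hb, hab, heq⟩ := Finset.exists_ne_map_eq_of_card_lt_of_maps_to
      (s := T) (t := (Finset.univ : Finset (Fin (k + 1) → Bool)))
      (by simp [hTcard]) (f := fun a i => ρ a i) (fun _ _ => Finset.mem_univ _)
    have hex : ∃ N, ρ a N ≠ ρ b N := by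
      refine ⟨2 * d (a, b), ?_⟩
      rw [hgood.code a (hTF ha), hgood.code b (hTF hb)]
      exact hd (a, b) hab
    have hN1 : k < Nat.find hex := by
      by_contra hcon
      push Not at hcon
      have := congrFun heq ⟨Nat.find hex, Nat.lt_succ_of_le hcon⟩
      exact Nat.find_spec hex this
    have hN2 : Nat.find hex ≤ 2 * d (a, b) := by
      apply Nat.find_min'
      rw [hgood.code a (hTF ha), hgood.code b (hTF hb)]
      exact hd (a, b) hab
    have h1 := hgood.bd a (hTF ha) b (hTF hb) (Nat.find hex)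
      (fun p hp => not_not.mp (Nat.find_min hex hp)) (Nat.find_spec hex) k hN1
    refine h1.trans (max_le_max le_rfl (hN2.trans ?_))
    exact Finset.le_sup (f := fun q : Ω × Ω => 2 * d q) (Finset.mem_product.mpr ⟨ha, hb⟩)
  choose T N hTA hTN using hbound
  let h : ℕ → ℕ := fun k => max (f k) (N k)
  have hfin : ∀ (F : Finset Ω), (F : Set Ω) ⊆ A → ∀ m, ∃ x : ℕ → ℕ, (∀ k, x k ≤ h k) ∧
      (VF V F ∩ WW W x m).Nonempty := by
    intro F hF m
    let F' := F ∪ (Finset.range m).biUnion T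
    have hF'A : (F' : Set Ω) ⊆ A := by
      intro a ha
      rcases Finset.mem_union.mp (Finset.mem_coe.mp ha) with ha | ha
      · exact hF ha
      · obtain ⟨k, _, hk⟩ := Finset.mem_biUnion.mp ha
        exact hTA k hk
    obtain ⟨ρ, x, hgood⟩ := hAK F' hF'A
    refine ⟨fun k => if k < m then x k else 0, fun k => ?_, ?_⟩
    · by_cases hk : k < m
      · simp only [hk, if_true]
        refine hTN k F' ρ x ?_ hgood
        intro a ha
        exact Finset.mem_union_right _ (Finset.mem_biUnion.mpr ⟨k, Finset.mem_range.mpr hk, ha⟩)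
      · simp only [hk, if_false]
        exact Nat.zero_le _
    · obtain ⟨z, hz1, hz2⟩ := hgood.ne m
      refine ⟨z, fun a ha => hz1 a (Finset.mem_union_left _ ha), fun k hk => ?_⟩
      simp only [hk, if_true]
      exact hz2 k hk
  -- compactness
  let I := {F : Finset Ω // (F : Set Ω) ⊆ A} × ℕ
  let C : I → Set (ℕ → ℕ) := fun q =>
    {x | (∀ k, x k ≤ h k) ∧ (VF V q.1.1 ∩ WW W x q.2).Nonempty}
  have hclosed : ∀ q, IsClosed (C q) := by
    intro q
    have h1 : IsClosed {x : ℕ → ℕ | ∀ k, x k ≤ h k} := by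
      simp only [ofPred_forall]
      exact isClosed_iInter fun k => isClosed_le (continuous_apply k) continuous_const
    have h2 : IsClosed {x : ℕ → ℕ | (VF V q.1.1 ∩ WW W x q.2).Nonempty} := by
      let e : (Fin q.2 → ℕ) → ℕ → ℕ := fun y k => if hk : k < q.2 then y ⟨k, hk⟩ else 0
      have : {x : ℕ → ℕ | (VF V q.1.1 ∩ WW W x q.2).Nonempty} =
          (fun (x : ℕ → ℕ) (i : Fin q.2) => x i) ⁻¹'
            {y | (VF V q.1.1 ∩ WW W (e y) q.2).Nonempty} := by
        ext x
        have : WW W (e fun i : Fin q.2 => x i) q.2 = WW W x q.2 := by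
          apply WW_congr
          intro k hk
          simp [e, hk]
        simp only [mem_ofPred_eq, mem_preimage, this]
      rw [this]
      exact (isClosed_discrete _).preimage (continuous_pi fun i => continuous_apply _)
    exact h1.inter h2
  have hcompact : ∀ q, IsCompact (C q) := by
    intro q
    have : IsCompact (Set.pi univ fun k => Iic (h k)) :=
      isCompact_univ_pi fun k => (Set.finite_Iic (h k)).isCompact
    refine this.of_isClosed_subset (hclosed q) ?_
    intro x hx k _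
    exact hx.1 k
  have hne : ∀ q, (C q).Nonempty := fun q => hfin q.1.1 q.1.2 q.2
  have hdir : Directed (· ⊇ ·) C := by
    intro q q'
    refine ⟨(⟨q.1.1 ∪ q'.1.1, ?_⟩, max q.2 q'.2), ?_, ?_⟩
    · rw [Finset.coe_union]
      exact union_subset q.1.2 q'.1.2
    · rintro x ⟨hx1, z, hz1, hz2⟩
      exact ⟨hx1, z, fun a ha => hz1 a (Finset.mem_union_left _ ha), WW_anti (le_max_left _ _) hz2⟩
    · rintro x ⟨hx1, z, hz1, hz2⟩
      exact ⟨hx1, z, fun a ha => hz1 a (Finset.mem_union_right _ ha),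
        WW_anti (le_max_right _ _) hz2⟩
  have : Nonempty I := ⟨(⟨∅, by simp⟩, 0)⟩
  obtain ⟨x, hx⟩ := IsCompact.nonempty_iInter_of_directed_nonempty_isCompact_isClosed C hdir hne
    hcompact hclosed
  refine ⟨x, fun F hF m => ?_⟩
  exact (mem_iInter.mp hx (⟨F, hF⟩, m)).2

end Main

end Pool.Agent.Lib.MP_4ebb14_gt
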