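import Mathlib

/-!
# Definitions for the separability problem under (TAM)
-/

open Set

namespace Pool.Agent.Lib.MP_4ebb14_gt

universe u

/-- `c(X) = ℵ₀`: every family of pairwise disjoint nonempty open subsets of `X` is countable. -/
def CCC (X : Type u) [TopologicalSpace X] : Prop :=
  ∀ 𝒱 : Set (Set X), (∀ V ∈ 𝒱, IsOpen V ∧ V.Nonempty) → 𝒱.PairwiseDisjoint id → 𝒱.Countable

/-- A family of sets is centered if every finite subfamily has nonempty intersection. -/
def Centered {X : Type u} (ξ : Set (Set X)) : Prop :=
  ∀ s : Finset (Set X), (s : Set (Set X)) ⊆ ξ → (⋂₀ (s : Set (Set X))).Nonempty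

/-- A space is Čech-complete if it is Tychonoff and a `Gδ` subset of its Stone–Čech
compactification. -/
def CechComplete (X : Type u) [TopologicalSpace X] : Prop :=
  T35Space X ∧ IsGδ (range (stoneCechUnit : X → StoneCech X))

/-- The statement (TAM): for every Hausdorff space `X` with `c(X) = ℵ₀` and every uncountable
family `ξ` of nonempty open subsets of `X` there is an uncountable centered subfamily. -/
def TAM : Prop :=
  ∀ (X : Type u) [TopologicalSpace X] [T2Space X], CCC X →
    ∀ ξ : Set (Set X), (∀ U ∈ ξ, IsOpen U ∧ U.Nonempty) → ¬ ξ.Countable →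
      ∃ η ⊆ ξ, ¬ η.Countable ∧ Centered η

end Pool.Agent.Lib.MP_4ebb14_gt
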