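import Pool.Agent.Lib.MP_4ebb14_gt.Defs

/-!
# (TAM) for hereditary families of finite sets
-/

open Set

namespace Pool.Agent.Lib.MP_4ebb14_gt

universe u

section

variable {ι : Type u}

/-- `B` is homogeneous for `𝒦` if all its finite subsets are in `𝒦`. -/
def Hom (𝒦 : Set (Finset ι)) (B : Set ι) : Prop := ∀ F : Finset ι, (F : Set ι) ⊆ B → F ∈ 𝒦

/-- The space of maximal homogeneous sets. -/
def MaxHom (𝒦 : Set (Finset ι)) : Type u := {B : Set ι // Maximal (Hom 𝒦) B}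

/-- the basic open set given by a point -/
def nbd (𝒦 : Set (Finset ι)) (i : ι) : Set (MaxHom 𝒦) := {B | i ∈ B.1}

instance (𝒦 : Set (Finset ι)) : TopologicalSpace (MaxHom 𝒦) :=
  TopologicalSpace.generateFrom (range (nbd 𝒦))

lemma isOpen_nbd (𝒦 : Set (Finset ι)) (i : ι) : IsOpen (nbd 𝒦 i) :=
  TopologicalSpace.isOpen_generateFrom_of_mem ⟨i, rfl⟩

/-- the basic open set given by a finite set -/
def nbds (𝒦 : Set (Finset ι)) (F : Finset ι) : Set (MaxHom 𝒦) := {B | (F : Set ι) ⊆ B.1}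

lemma nbds_eq (𝒦 : Set (Finset ι)) (F : Finset ι) : nbds 𝒦 F = ⋂ i ∈ F, nbd 𝒦 i := by
  ext B
  simp [nbds, nbd, Set.subset_def]

lemma isOpen_nbds (𝒦 : Set (Finset ι)) (F : Finset ι) : IsOpen (nbds 𝒦 F) := by
  rw [nbds_eq]
  exact isOpen_biInter_finset fun i _ => isOpen_nbd 𝒦 i

lemma exists_maxHom {𝒦 : Set (Finset ι)} {B : Set ι} (hB : Hom 𝒦 B) :
    ∃ C : MaxHom 𝒦, B ⊆ C.1 := by
  obtain ⟨C, hBC, hC⟩ := zorn_subset_nonempty {B | Hom 𝒦 B} (by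
    intro c hc hchain hne
    refine ⟨⋃₀ c, ?_, fun s hs => subset_sUnion_of_mem hs⟩
    intro F hF
    obtain ⟨s, hs, hFs⟩ := DirectedOn.exists_mem_subset_of_finset_subset_biUnion hne
      hchain.directedOn (f := id) (s := F) (by simpa [sUnion_eq_biUnion] using hF)
    exact hc hs F hFs) B hB
  exact ⟨⟨C, hC⟩, hBC⟩

lemma nbds_nonempty {𝒦 : Set (Finset ι)} (hher : ∀ F ∈ 𝒦, ∀ G ⊆ F, G ∈ 𝒦) {F : Finset ι} :
    (nbds 𝒦 F).Nonempty ↔ F ∈ 𝒦 := by
  constructor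
  · rintro ⟨B, hB⟩
    exact B.2.prop F hB
  · intro hF
    obtain ⟨C, hC⟩ := exists_maxHom (𝒦 := 𝒦) (B := (F : Set ι))
      (fun G hG => hher F hF G (by exact_mod_cast hG))
    exact ⟨C, hC⟩

instance (𝒦 : Set (Finset ι)) : T2Space (MaxHom 𝒦) := by
  classical
  refine ⟨?_⟩
  -- it suffices to separate when `B` is not contained in `C`
  have key : ∀ B C : MaxHom 𝒦, ¬ B.1 ⊆ C.1 →
      ∃ u v : Set (MaxHom 𝒦), IsOpen u ∧ IsOpen v ∧ B ∈ u ∧ C ∈ v ∧ Disjoint u v := by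
    intro B C h
    obtain ⟨i, hiB, hiC⟩ := Set.not_subset.mp h
    have hnot : ¬ Hom 𝒦 (insert i C.1) := by
      intro hcon
      exact hiC (C.2.le_of_ge hcon (subset_insert i C.1) (mem_insert i C.1))
    simp only [Hom, not_forall] at hnot
    obtain ⟨F, hF, hFK⟩ := hnot
    refine ⟨nbd 𝒦 i, nbds 𝒦 (F.erase i), isOpen_nbd _ _, isOpen_nbds _ _, hiB, ?_, ?_⟩
    · intro j hj
      simp only [Finset.coe_erase, mem_sdiff, Finset.mem_coe, mem_singleton_iff] at hj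
      rcases hF hj.1 with h' | h'
      · exact absurd h' hj.2
      · exact h'
    · rw [Set.disjoint_left]
      intro D hD1 hD2
      apply hFK
      apply D.2.prop
      intro j hj
      by_cases hji : j = i
      · rw [hji]; exact hD1
      · exact hD2 (by simpa [hji] using hj)
  intro B C hBC
  by_cases h : B.1 ⊆ C.1
  · have h' : ¬ C.1 ⊆ B.1 := fun h' => hBC (Subtype.ext (Subset.antisymm h h'))
    obtain ⟨u, v, hu, hv, hCu, hBv, huv⟩ := key C B h'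
    exact ⟨v, u, hv, hu, hBv, hCu, huv.symm⟩
  · exact key B C h

/-- Every nonempty open set contains a nonempty basic open set. -/
lemma exists_nbds_subset {𝒦 : Set (Finset ι)} {U : Set (MaxHom 𝒦)} (hU : IsOpen U)
    (hne : U.Nonempty) : ∃ F : Finset ι, (nbds 𝒦 F).Nonempty ∧ nbds 𝒦 F ⊆ U := by
  classical
  obtain ⟨B, hB⟩ := hne
  have hbasis := TopologicalSpace.isTopologicalBasis_of_subbasis
    (t := (inferInstance : TopologicalSpace (MaxHom 𝒦))) (s := range (nbd 𝒦)) rfl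
  obtain ⟨W, hW, hBW, hWU⟩ := hbasis.exists_subset_of_mem_open hB hU
  obtain ⟨f, ⟨hfin, hfs⟩, rfl⟩ := hW
  -- choose indices
  have hsub : (hfin.toFinset : Set (Set (MaxHom 𝒦))) ⊆ nbd 𝒦 '' univ := by
    rw [Finite.coe_toFinset, image_univ]
    exact hfs
  obtain ⟨F, -, hF⟩ := Finset.subset_set_image_iff.mp hsub
  have hmem : ∀ i ∈ F, nbd 𝒦 i ∈ f := by
    intro i hi
    have : nbd 𝒦 i ∈ hfin.toFinset := by
      rw [← hF]
      exact Finset.mem_image_of_mem _ hi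
    simpa using this
  refine ⟨F, ⟨B, ?_⟩, ?_⟩
  · intro i hi
    exact hBW _ (hmem i hi)
  · refine subset_trans ?_ hWU
    intro C hC V hV
    have : V ∈ F.image (nbd 𝒦) := by
      rw [hF]
      simpa using hV
    obtain ⟨i, hi, rfl⟩ := Finset.mem_image.mp this
    exact hC hi

lemma ccc_maxHom [DecidableEq ι] {𝒦 : Set (Finset ι)} (hher : ∀ F ∈ 𝒦, ∀ G ⊆ F, G ∈ 𝒦)
    (hccc : ∀ 𝒮 ⊆ 𝒦, ¬ 𝒮.Countable → ∃ F ∈ 𝒮, ∃ G ∈ 𝒮, F ≠ G ∧ F ∪ G ∈ 𝒦) :
    CCC (MaxHom 𝒦) := by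
  intro 𝒱 h𝒱 hdisj
  by_contra hcount
  have : ∀ V ∈ 𝒱, ∃ F : Finset ι, (nbds 𝒦 F).Nonempty ∧ nbds 𝒦 F ⊆ V :=
    fun V hV => exists_nbds_subset (h𝒱 V hV).1 (h𝒱 V hV).2
  choose! g hg1 hg2 using this
  have hinj : InjOn g 𝒱 := by
    intro V hV W hW hVW
    by_contra hne
    have hd := hdisj hV hW hne
    obtain ⟨B, hB⟩ := hg1 V hV
    exact Set.disjoint_left.mp hd (hg2 V hV hB) (hg2 W hW (hVW ▸ hB))
  have hunc : ¬ (g '' 𝒱).Countable := fun h => hcount (countable_of_injective_of_countable_image hinj h)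
  obtain ⟨F, hF, G, hG, hne, hFG⟩ := hccc (g '' 𝒱) (by
    rintro _ ⟨V, hV, rfl⟩
    exact (nbds_nonempty hher).mp (hg1 V hV)) hunc
  obtain ⟨V, hV, rfl⟩ := hF
  obtain ⟨W, hW, rfl⟩ := hG
  have hVW : V ≠ W := fun h => hne (by rw [h])
  obtain ⟨B, hB⟩ := (nbds_nonempty hher).mpr hFG
  have h1 : B ∈ nbds 𝒦 (g V) :=
    subset_trans (Finset.coe_subset.mpr Finset.subset_union_left) hB
  have h2 : B ∈ nbds 𝒦 (g W) :=
    subset_trans (Finset.coe_subset.mpr Finset.subset_union_right) hB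
  exact Set.disjoint_left.mp (hdisj hV hW hVW) (hg2 V hV h1) (hg2 W hW h2)

/-- (TAM) for hereditary families of finite sets. -/
theorem TAM.hereditary [DecidableEq ι] (hTAM : TAM.{u}) {𝒦 : Set (Finset ι)}
    (hher : ∀ F ∈ 𝒦, ∀ G ⊆ F, G ∈ 𝒦) (hsing : ∀ i, {i} ∈ 𝒦)
    (hccc : ∀ 𝒮 ⊆ 𝒦, ¬ 𝒮.Countable → ∃ F ∈ 𝒮, ∃ G ∈ 𝒮, F ≠ G ∧ F ∪ G ∈ 𝒦)
    [hι : Uncountable ι] :
    ∃ A : Set ι, ¬ A.Countable ∧ ∀ F : Finset ι, (F : Set ι) ⊆ A → F ∈ 𝒦 := by
  have hne : ∀ i, (nbd 𝒦 i).Nonempty := by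
    intro i
    obtain ⟨B, hB⟩ := (nbds_nonempty hher).mpr (hsing i)
    exact ⟨B, hB (by simp)⟩
  by_cases hr : (range (nbd 𝒦)).Countable
  · -- some fibre is uncountable
    have : ∃ U ∈ range (nbd 𝒦), ¬ {i | nbd 𝒦 i = U}.Countable := by
      by_contra hcon
      push Not at hcon
      have : (univ : Set ι) = ⋃ U ∈ range (nbd 𝒦), {i | nbd 𝒦 i = U} := by
        ext i
        simp
      have h2 : (univ : Set ι).Countable := by
        rw [this]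
        exact hr.biUnion hcon
      exact not_countable_univ h2
    obtain ⟨U, hU, hA⟩ := this
    refine ⟨_, hA, ?_⟩
    obtain ⟨i₀, rfl⟩ := hU
    obtain ⟨B, hB⟩ := hne i₀
    intro F hF
    apply B.2.prop
    intro i hi
    have h1 : nbd 𝒦 i = nbd 𝒦 i₀ := hF hi
    have h2 : B ∈ nbd 𝒦 i := h1 ▸ hB
    exact h2
  · obtain ⟨η, hη, hunc, hcent⟩ := hTAM (MaxHom 𝒦) (ccc_maxHom hher hccc) (range (nbd 𝒦))
      (by rintro _ ⟨i, rfl⟩; exact ⟨isOpen_nbd _ _, hne i⟩) hr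
    refine ⟨{i | nbd 𝒦 i ∈ η}, ?_, ?_⟩
    · intro hc
      apply hunc
      have : η = nbd 𝒦 '' {i | nbd 𝒦 i ∈ η} := by
        ext U
        constructor
        · intro hU
          obtain ⟨i, rfl⟩ := hη hU
          exact ⟨i, hU, rfl⟩
        · rintro ⟨i, hi, rfl⟩
          exact hi
      rw [this]
      exact hc.image _
    · intro F hF
      obtain ⟨B, hB⟩ := hcent (F.image (nbd 𝒦)) (by
        intro U hU
        simp only [Finset.coe_image, mem_image, Finset.mem_coe] at hU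
        obtain ⟨i, hi, rfl⟩ := hU
        exact hF hi)
      apply B.2.prop
      intro i hi
      have : B ∈ nbd 𝒦 i := hB _ (by simpa using ⟨i, hi, rfl⟩)
      exact this

end

end Pool.Agent.Lib.MP_4ebb14_gt
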