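import Pool.Agent.Lib.MP_4ebb14_gt.Bounding

/-!
# A well-ordered type of order type `ω₁`, recursion, and pieces of Čech-complete spaces
-/

open Set Filter Topology Cardinal

namespace Pool.Agent.Lib.MP_4ebb14_gt

universe u

section Omega

/-- A well-order of type `ω₁` in universe `u`. -/
abbrev Om : Type u := (Cardinal.aleph.{u} 1).ord.ToType

lemma mk_Om : #Om.{u} = ℵ₁ := by simp [Om]

instance : Uncountable Om.{u} := by
  rw [← Cardinal.aleph0_lt_mk_iff, mk_Om]
  exact aleph0_lt_aleph_one

lemma countable_Iio_Om (a : Om.{u}) : (Iio a).Countable := by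
  rw [← Cardinal.le_aleph0_iff_set_countable, ← Cardinal.lt_aleph_one_iff]
  exact Cardinal.mk_Iio_toType_ord_lt a

lemma countable_Iic_Om (a : Om.{u}) : (Iic a).Countable := by
  rw [← Iio_insert]
  exact (countable_Iio_Om a).insert a

lemma exists_injective_Om : ∃ r : Om.{u} → ℕ → Bool, Function.Injective r := by
  have h : Cardinal.lift.{0} #Om.{u} ≤ Cardinal.lift.{u} #(ℕ → Bool) := by
    have h2 : #(ℕ → Bool) = 𝔠 := by simp
    rw [mk_Om, h2]
    simpa using aleph_one_le_continuum
  obtain ⟨e⟩ := Cardinal.lift_mk_le'.mp h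
  exact ⟨e, e.injective⟩

lemma exists_gt_of_countable {s : Set Om.{u}} (hs : s.Countable) : ∃ b, ∀ a ∈ s, a < b := by
  by_contra hcon
  push Not at hcon
  have : (univ : Set Om.{u}) = ⋃ a ∈ s, Iic a := by
    ext b
    simp only [mem_univ, mem_iUnion, mem_Iic, true_iff, exists_prop]
    obtain ⟨a, ha, hab⟩ := hcon b
    exact ⟨a, ha, hab⟩
  apply not_countable_univ (α := Om.{u})
  rw [this]
  exact hs.biUnion fun a _ => countable_Iic_Om a

lemma exists_mem_ge {A : Set Om.{u}} (hA : ¬ A.Countable) (c : Om.{u}) : ∃ a ∈ A, c ≤ a := by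
  by_contra hcon
  push Not at hcon
  exact hA ((countable_Iio_Om c).mono fun a ha => hcon a ha)

/-- finite subsets of an initial segment -/
def finIio (a : Om.{u}) : Set (Finset Om.{u}) := {F | ∀ b ∈ F, b < a}

lemma countable_finIio (a : Om.{u}) : (finIio a).Countable := by
  have : Countable (Iio a) := countable_Iio_Om a
  have h : finIio a ⊆ range fun F : Finset (Iio a) => F.map (Function.Embedding.subtype _) := by
    classical
    intro F hF
    refine ⟨F.subtype (· < a), ?_⟩
    ext b
    simp only [Finset.mem_map, Function.Embedding.subtype_apply]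
    constructor
    · rintro ⟨c, hc, rfl⟩
      exact Finset.mem_subtype.mp hc
    · intro hb
      exact ⟨⟨b, hF b hb⟩, Finset.mem_subtype.mpr hb, rfl⟩
  exact (countable_range _).mono h

lemma countable_notMem_finIio (F : Finset Om.{u}) : {a | F ∉ finIio a}.Countable := by
  have : {a | F ∉ finIio a} ⊆ ⋃ b ∈ (F : Set Om.{u}), Iic b := by
    intro a ha
    simp only [finIio, mem_ofPred_eq, not_forall, not_lt] at ha
    obtain ⟨b, hb, hab⟩ := ha
    simp only [mem_iUnion, mem_Iic, exists_prop]
    exact ⟨b, hb, hab⟩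
  exact (F.countable_toSet.biUnion fun b _ => countable_Iic_Om b).mono this

/-- transfinite recursion with choices -/
lemma exists_rec {Ω Y : Type*} [LinearOrder Ω] [WellFoundedLT Ω] [Nonempty Y]
    (P : Ω → (Ω → Y) → Y → Prop)
    (hloc : ∀ a φ φ', (∀ b < a, φ b = φ' b) → ∀ y, P a φ y → P a φ' y)
    (hex : ∀ a φ, ∃ y, P a φ y) : ∃ φ : Ω → Y, ∀ a, P a φ (φ a) := by
  classical
  choose g hg using hex
  let y₀ : Y := Classical.arbitrary Y
  let φ : Ω → Y := WellFoundedLT.fix (motive := fun _ => Y)
    (fun a ih => g a (fun b => if h : b < a then ih b h else y₀))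
  have hφ : ∀ a, φ a = g a (fun b => if b < a then φ b else y₀) := by
    intro a
    have := WellFoundedLT.fix_eq (motive := fun _ => Y)
      (fun (a : Ω) ih => g a (fun b => if h : b < a then ih b h else y₀)) a
    simpa using this
  refine ⟨φ, fun a => ?_⟩
  refine hloc a (fun b => if b < a then φ b else y₀) φ (fun b hb => by simp [hb]) _ ?_
  rw [hφ a]
  exact hg a _

end Omega

end Pool.Agent.Lib.MP_4ebb14_gt
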