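import Pool.Agent.Lib.MP_4ebb14_gt.Caliber
import Pool.Agent.Lib.MP_4ebb14_gt.Omega

/-!
# (TAM) implies that ccc Čech-complete spaces of countable tightness are separable
-/

open Set Filter Topology unitInterval

namespace Pool.Agent.Lib.MP_4ebb14_gt

universe u

section Pieces

variable {X : Type u} [TopologicalSpace X]

/-- In a ccc space, a family of open sets which is a `π`-base type family has a countable
subfamily with dense union. -/
lemma CCC.exists_countable_dense (hX : CCC X) {𝒲 : Set (Set X)}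
    (h𝒲 : ∀ U ∈ 𝒲, IsOpen U ∧ U.Nonempty)
    (hπ : ∀ V : Set X, IsOpen V → V.Nonempty → ∃ U ∈ 𝒲, U ⊆ V) :
    ∃ 𝒟 ⊆ 𝒲, 𝒟.Countable ∧ Dense (⋃₀ 𝒟) := by
  obtain ⟨𝒟, h𝒟⟩ := zorn_subset {𝒟 : Set (Set X) | 𝒟 ⊆ 𝒲 ∧ 𝒟.PairwiseDisjoint id} (by
    intro c hc hchain
    refine ⟨⋃₀ c, ⟨sUnion_subset fun s hs => (hc hs).1, ?_⟩, fun s hs => subset_sUnion_of_mem hs⟩
    rw [pairwiseDisjoint_sUnion hchain.directedOn]
    exact fun s hs => (hc hs).2)
  refine ⟨𝒟, h𝒟.prop.1, hX 𝒟 (fun U hU => h𝒲 U (h𝒟.prop.1 hU)) h𝒟.prop.2, ?_⟩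
  rw [dense_iff_inter_open]
  intro V hV hVne
  by_contra hcon
  rw [not_nonempty_iff_eq_empty] at hcon
  obtain ⟨U, hU, hUV⟩ := hπ V hV hVne
  have hdisj : ∀ D ∈ 𝒟, Disjoint U D := by
    intro D hD
    rw [Set.disjoint_left]
    intro z hz hzD
    have : z ∈ V ∩ ⋃₀ 𝒟 := ⟨hUV hz, D, hD, hzD⟩
    rw [hcon] at this
    exact this
  have hins : insert U 𝒟 ∈ {𝒟 : Set (Set X) | 𝒟 ⊆ 𝒲 ∧ 𝒟.PairwiseDisjoint id} := by
    refine ⟨insert_subset hU h𝒟.prop.1, ?_⟩
    refine h𝒟.prop.2.insert fun D hD _ => hdisj D hD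
  have hUD : U ∈ 𝒟 := h𝒟.le_of_ge hins (subset_insert U 𝒟) (mem_insert U 𝒟)
  obtain ⟨z, hz⟩ := (h𝒲 U hU).2
  exact Set.disjoint_left.mp (hdisj U hUD) hz hz

/-- The pieces of a ccc Čech-complete space. -/
lemma CechComplete.exists_pieces [Nonempty X] (hC : CechComplete X) (hX : CCC X) :
    ∃ W : ℕ → ℕ → Set X, (∀ n i, IsOpen (W n i)) ∧ (∀ n, Dense (⋃ i, W n i)) ∧
      ∀ ℱ : Filter X, ℱ.NeBot → (∀ n, ∃ i, W n i ∈ ℱ) → ∃ x, ClusterPt x ℱ := by
  obtain ⟨hT, hG⟩ := hC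
  obtain ⟨O, hO, hrange⟩ := isGδ_iff_eq_iInter_nat.mp hG
  have hmem : ∀ n x, (stoneCechUnit x : StoneCech X) ∈ O n := by
    intro n x
    have : (stoneCechUnit x : StoneCech X) ∈ range (stoneCechUnit : X → StoneCech X) := ⟨x, rfl⟩
    rw [hrange] at this
    exact mem_iInter.mp this n
  have hpieces : ∀ n, ∃ W : ℕ → Set X, (∀ i, IsOpen (W i)) ∧ Dense (⋃ i, W i) ∧
      ∀ i, closure (stoneCechUnit '' W i) ⊆ O n := by
    intro n
    obtain ⟨𝒟, h𝒟, hcount, hdense⟩ := hX.exists_countable_dense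
      (𝒲 := {U | (IsOpen U ∧ U.Nonempty) ∧ closure (stoneCechUnit '' U) ⊆ O n})
      (fun U hU => hU.1) (by
        intro V hV hVne
        obtain ⟨x, hx⟩ := hVne
        obtain ⟨K, hKo, hxK, hKO⟩ : ∃ K : Set (StoneCech X), IsOpen K ∧
            stoneCechUnit x ∈ K ∧ closure K ⊆ O n := by
          obtain ⟨K, hK, hKc, hKO⟩ := exists_mem_nhds_isClosed_subset
            ((hO n).mem_nhds (hmem n x))
          refine ⟨interior K, isOpen_interior, mem_interior_iff_mem_nhds.mpr hK, ?_⟩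
          exact (closure_minimal interior_subset hKc).trans hKO
        refine ⟨V ∩ stoneCechUnit ⁻¹' K,
          ⟨⟨hV.inter (hKo.preimage continuous_stoneCechUnit), ⟨x, hx, hxK⟩⟩, ?_⟩,
          inter_subset_left⟩
        refine (closure_mono ?_).trans hKO
        rintro _ ⟨y, ⟨_, hy⟩, rfl⟩
        exact hy)
    have hne : 𝒟.Nonempty := by
      by_contra h
      rw [not_nonempty_iff_eq_empty] at h
      rw [h, sUnion_empty] at hdense
      obtain ⟨x⟩ := (inferInstance : Nonempty X)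
      have := hdense x
      simp at this
    obtain ⟨e, rfl⟩ := hcount.exists_eq_range hne
    refine ⟨e, fun i => (h𝒟 ⟨i, rfl⟩).1.1, ?_, fun i => (h𝒟 ⟨i, rfl⟩).2⟩
    rwa [sUnion_range] at hdense
  choose W hWo hWd hWc using hpieces
  refine ⟨W, hWo, hWd, ?_⟩
  intro ℱ hℱ h
  obtain ⟨z, hz⟩ := exists_clusterPt_of_compactSpace (map (stoneCechUnit : X → StoneCech X) ℱ)
  have hzO : ∀ n, z ∈ O n := by
    intro n
    obtain ⟨i, hi⟩ := h n
    exact hWc n i (hz.mem_closure_of_mem _ (image_mem_map hi))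
  have hzr : z ∈ range (stoneCechUnit : X → StoneCech X) := by
    rw [hrange]
    exact mem_iInter.mpr hzO
  obtain ⟨x, rfl⟩ := hzr
  exact ⟨x, isEmbedding_stoneCechUnit.isInducing.mapClusterPt_iff.mp hz⟩

end Pieces

/-- Countable tightness. -/
def CountablyTight (X : Type u) [TopologicalSpace X] : Prop :=
  ∀ (A : Set X) (x : X), x ∈ closure A → ∃ C ⊆ A, C.Countable ∧ x ∈ closure C

lemma countablyTight_of_firstCountable (X : Type u) [TopologicalSpace X]
    [FirstCountableTopology X] : CountablyTight X := by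
  intro A x hx
  obtain ⟨s, hs, hlim⟩ := mem_closure_iff_seq_limit.mp hx
  refine ⟨range s, by rintro _ ⟨n, rfl⟩; exact hs n, countable_range s, ?_⟩
  exact mem_closure_of_tendsto hlim (Eventually.of_forall fun n => ⟨n, rfl⟩)

section Final

variable {X : Type u} [TopologicalSpace X]

/-- test sets -/
def TT (W : ℕ → ℕ → Set X) (φ : Om.{u} → C(X, I))
    (q : Finset (Om.{u} × ℚ × ℚ) × Finset (ℕ × ℕ)) : Set X :=
  {z | (∀ t ∈ q.1, (t.2.1 : ℝ) < φ t.1 z ∧ (φ t.1 z : ℝ) < t.2.2) ∧ ∀ p ∈ q.2, z ∈ W p.1 p.2}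

lemma isOpen_TT {W : ℕ → ℕ → Set X} (hW : ∀ n i, IsOpen (W n i)) (φ : Om.{u} → C(X, I))
    (q : Finset (Om.{u} × ℚ × ℚ) × Finset (ℕ × ℕ)) : IsOpen (TT W φ q) := by
  have : TT W φ q = (⋂ t ∈ q.1, {z | (t.2.1 : ℝ) < φ t.1 z ∧ (φ t.1 z : ℝ) < t.2.2}) ∩
      ⋂ p ∈ q.2, W p.1 p.2 := by
    ext z
    simp [TT]
  rw [this]
  refine (isOpen_biInter_finset fun t _ => ?_).inter (isOpen_biInter_finset fun p _ => hW _ _)
  have hφ : Continuous fun z => ((φ t.1 z : I) : ℝ) :=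
    continuous_subtype_val.comp (φ t.1).continuous
  exact (isOpen_lt continuous_const hφ).inter (isOpen_lt hφ continuous_const)

lemma TT_union [DecidableEq Om.{u}] (W : ℕ → ℕ → Set X) (φ : Om.{u} → C(X, I))
    (q q' : Finset (Om.{u} × ℚ × ℚ) × Finset (ℕ × ℕ)) :
    TT W φ (q.1 ∪ q'.1, q.2 ∪ q'.2) = TT W φ q ∩ TT W φ q' := by
  ext z
  simp only [TT, Finset.mem_union, mem_ofPred_eq, mem_inter_iff]
  constructor
  · rintro ⟨h1, h2⟩
    exact ⟨⟨fun t ht => h1 t (Or.inl ht), fun p hp => h2 p (Or.inl hp)⟩,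
      ⟨fun t ht => h1 t (Or.inr ht), fun p hp => h2 p (Or.inr hp)⟩⟩
  · rintro ⟨⟨h1, h2⟩, h3, h4⟩
    exact ⟨fun t ht => ht.elim (h1 t) (h3 t), fun p hp => hp.elim (h2 p) (h4 p)⟩

open Classical in
/-- chosen points -/
noncomputable def pt [Nonempty X] (s : Set X) : X :=
  if h : s.Nonempty then h.choose else Classical.arbitrary X

omit [TopologicalSpace X] in
lemma pt_mem [Nonempty X] {s : Set X} (h : s.Nonempty) : pt s ∈ s := by
  rw [pt, dif_pos h]
  exact h.choose_spec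

/-- the countable set of points chosen before stage `a` -/
def EE [Nonempty X] (W : ℕ → ℕ → Set X) (φ : Om.{u} → C(X, I)) (a : Om.{u}) : Set X :=
  (fun q => pt (TT W φ q)) '' {q | ∀ t ∈ q.1, t.1 < a}

lemma EE_mono [Nonempty X] (W : ℕ → ℕ → Set X) (φ : Om.{u} → C(X, I)) {a b : Om.{u}}
    (h : a ≤ b) : EE W φ a ⊆ EE W φ b :=
  image_mono fun _ hq t ht => (hq t ht).trans_le h

lemma EE_congr [Nonempty X] (W : ℕ → ℕ → Set X) {φ φ' : Om.{u} → C(X, I)} {a : Om.{u}}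
    (h : ∀ b < a, φ b = φ' b) : EE W φ a = EE W φ' a := by
  apply image_congr
  intro q hq
  have : TT W φ q = TT W φ' q := by
    ext z
    constructor
    · rintro ⟨h1, h2⟩
      refine ⟨fun t ht => ?_, h2⟩
      rw [← h t.1 (hq t ht)]
      exact h1 t ht
    · rintro ⟨h1, h2⟩
      refine ⟨fun t ht => ?_, h2⟩
      rw [h t.1 (hq t ht)]
      exact h1 t ht
  simp only [this]

lemma countable_EE [Nonempty X] (W : ℕ → ℕ → Set X) (φ : Om.{u} → C(X, I)) (a : Om.{u}) :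
    (EE W φ a).Countable := by
  classical
  apply Countable.image
  have : Countable (Iio a) := countable_Iio_Om a
  have h : {q : Finset (Om.{u} × ℚ × ℚ) × Finset (ℕ × ℕ) | ∀ t ∈ q.1, t.1 < a} ⊆
      range fun q : Finset (Iio a × ℚ × ℚ) × Finset (ℕ × ℕ) =>
        (q.1.image fun t => ((t.1 : Om.{u}), t.2), q.2) := by
    rintro ⟨q1, q2⟩ hq
    refine ⟨(q1.attach.image fun t => (⟨t.1.1, hq t.1 t.2⟩, t.1.2), q2), ?_⟩
    simp only [Prod.mk.injEq, and_true]
    ext t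
    simp only [Finset.mem_image, Finset.mem_attach, true_and, Subtype.exists]
    constructor
    · rintro ⟨s, ⟨t', ht', rfl⟩, rfl⟩
      exact ht'
    · intro ht
      exact ⟨_, ⟨t, ht, rfl⟩, rfl⟩
  exact (countable_range _).mono h

/-- (TAM) implies that every Čech-complete space of countable tightness with `c(X) = ℵ₀` is
separable. -/
theorem TAM.separable (hTAM : TAM.{u}) (hC : CechComplete X) (hX : CCC X)
    (ht : CountablyTight X) : TopologicalSpace.SeparableSpace X := by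
  classical
  by_contra hsep
  have hnd : ∀ C : Set X, C.Countable → ¬ Dense C := fun C hc hd => hsep ⟨C, hc, hd⟩
  have hne : Nonempty X := by
    by_contra h
    rw [not_nonempty_iff] at h
    exact hnd ∅ countable_empty fun x => (IsEmpty.false x).elim
  obtain ⟨W, hWo, hWd, hWc⟩ := hC.exists_pieces hX
  have hT : T35Space X := hC.1
  -- functions, by recursion
  obtain ⟨φ, hφ⟩ : ∃ φ : Om.{u} → C(X, I), ∀ a,
      (∀ z ∈ EE W φ a, φ a z = 1) ∧ ∃ z, φ a z = 0 := by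
    apply exists_rec (P := fun a φ y => (∀ z ∈ EE W φ a, y z = 1) ∧ ∃ z, y z = 0)
    · intro a φ φ' h y hy
      rwa [← EE_congr W h]
    · intro a φ
      have h1 := hnd _ (countable_EE W φ a)
      rw [dense_iff_closure_eq, ← ne_eq, ne_univ_iff_exists_notMem] at h1
      obtain ⟨z, hz⟩ := h1
      obtain ⟨f, hf, hfz, hf1⟩ := CompletelyRegularSpace.completely_regular z _
        isClosed_closure hz
      exact ⟨⟨f, hf⟩, fun w hw => hf1 (subset_closure hw), z, hfz⟩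
  -- the open sets
  let V : Om.{u} → Set X := fun a => {z | (φ a z : ℝ) < 1 / 2}
  have hφc : ∀ a, Continuous fun z => ((φ a z : I) : ℝ) := fun a =>
    continuous_subtype_val.comp (φ a).continuous
  have hV : ∀ a, IsOpen (V a) := fun a => isOpen_lt (hφc a) continuous_const
  have hVne : ∀ a, (V a).Nonempty := by
    intro a
    obtain ⟨z, hz⟩ := (hφ a).2
    exact ⟨z, by simp [V, hz]⟩
  obtain ⟨r, hr⟩ := exists_injective_Om.{u}
  obtain ⟨A, hA, x, hx⟩ := hTAM.caliber hX hWo hWd hr finIio countable_finIio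
    countable_notMem_finIio hV hVne
  -- an ultrafilter
  let J := {F : Finset Om.{u} // (F : Set Om.{u}) ⊆ A} × ℕ
  let B : J → Set X := fun q => VF V q.1.1 ∩ WW W x q.2
  have hJ : Nonempty J := ⟨(⟨∅, by simp⟩, 0)⟩
  have hBdir : Directed (· ≥ ·) fun q => 𝓟 (B q) := by
    intro q q'
    refine ⟨(⟨q.1.1 ∪ q'.1.1, ?_⟩, max q.2 q'.2), ?_, ?_⟩
    · rw [Finset.coe_union]
      exact union_subset q.1.2 q'.1.2
    · refine principal_mono.mpr ?_
      rintro z ⟨hz1, hz2⟩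
      exact ⟨fun a ha => hz1 a (Finset.mem_union_left _ ha), WW_anti (le_max_left _ _) hz2⟩
    · refine principal_mono.mpr ?_
      rintro z ⟨hz1, hz2⟩
      exact ⟨fun a ha => hz1 a (Finset.mem_union_right _ ha), WW_anti (le_max_right _ _) hz2⟩
  have hBne : (⨅ q, 𝓟 (B q)).NeBot :=
    iInf_neBot_of_directed' hBdir fun q => principal_neBot_iff.mpr (hx q.1.1 q.1.2 q.2)
  let 𝒰 : Ultrafilter X := Ultrafilter.of (⨅ q, 𝓟 (B q))
  have h𝒰 : ∀ q, B q ∈ 𝒰 := by
    intro q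
    have h1 : (𝒰 : Filter X) ≤ 𝓟 (B q) := (Ultrafilter.of_le _).trans (iInf_le _ q)
    exact le_principal_iff.mp h1
  have h𝒰V : ∀ a ∈ A, V a ∈ 𝒰 := by
    intro a ha
    refine mem_of_superset (h𝒰 (⟨{a}, by simpa using ha⟩, 0)) ?_
    rintro z ⟨hz, _⟩
    exact hz a (by simp)
  have h𝒰W : ∀ k, W k (x k) ∈ 𝒰 := by
    intro k
    refine mem_of_superset (h𝒰 (⟨∅, by simp⟩, k + 1)) ?_
    rintro z ⟨_, hz⟩
    exact hz k (Nat.lt_succ_self k)
  -- limits along the ultrafilter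
  let c : Om.{u} → I := fun a => (𝒰.map (φ a)).lim
  have hc : ∀ a, Tendsto (φ a) 𝒰 (𝓝 (c a)) := fun a => (𝒰.map (φ a)).le_nhds_lim
  have hcA : ∀ a ∈ A, (c a : ℝ) ≤ 1 / 2 := by
    intro a ha
    have h1 : Tendsto (fun z => ((φ a z : I) : ℝ)) 𝒰 (𝓝 (c a : ℝ)) :=
      (continuous_subtype_val.tendsto _).comp (hc a)
    refine le_of_tendsto h1 ?_
    filter_upwards [h𝒰V a ha] with z hz using le_of_lt hz
  -- the filter on the chosen points
  let D : Set X := ⋃ a, EE W φ a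
  have hD : ∀ q, (TT W φ q).Nonempty → pt (TT W φ q) ∈ D := by
    intro q _
    obtain ⟨b, hb⟩ := exists_gt_of_countable
      (s := ((q.1.image fun t => t.1 : Finset Om.{u}) : Set Om.{u}))
      (Finset.countable_toSet _)
    refine mem_iUnion.mpr ⟨b, q, ?_, rfl⟩
    intro t htq
    exact hb t.1 (by simpa using ⟨t.2.1, t.2.2, htq⟩)
  let J' := {q : Finset (Om.{u} × ℚ × ℚ) × Finset (ℕ × ℕ) // TT W φ q ∈ 𝒰}
  let B' : J' → Set X := fun q => TT W φ q.1 ∩ D
  have hTT0 : TT W φ (∅, ∅) = univ := by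
    ext z
    simp [TT]
  have hJ' : Nonempty J' := ⟨⟨(∅, ∅), by rw [hTT0]; exact univ_mem⟩⟩
  have hB'dir : Directed (· ≥ ·) fun q => 𝓟 (B' q) := by
    intro q q'
    refine ⟨⟨(q.1.1 ∪ q'.1.1, q.1.2 ∪ q'.1.2), ?_⟩, ?_, ?_⟩
    · rw [TT_union]
      exact inter_mem q.2 q'.2
    · refine principal_mono.mpr ?_
      rintro z ⟨hz1, hz2⟩
      rw [TT_union] at hz1
      exact ⟨hz1.1, hz2⟩
    · refine principal_mono.mpr ?_
      rintro z ⟨hz1, hz2⟩
      rw [TT_union] at hz1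
      exact ⟨hz1.2, hz2⟩
  let ℋ : Filter X := ⨅ q, 𝓟 (B' q)
  have hℋne : ℋ.NeBot := by
    refine iInf_neBot_of_directed' hB'dir fun q => principal_neBot_iff.mpr ?_
    have h1 : (TT W φ q.1).Nonempty := 𝒰.nonempty_of_mem q.2
    exact ⟨pt (TT W φ q.1), pt_mem h1, hD q.1 h1⟩
  have hℋ : ∀ q, TT W φ q ∈ 𝒰 → TT W φ q ∩ D ∈ ℋ := by
    intro q hq
    exact mem_iInf_of_mem (⟨q, hq⟩ : J') (mem_principal_self _)
  have hℋW : ∀ k, W k (x k) ∈ ℋ := by
    intro k
    have h1 : TT W φ (∅, {(k, x k)}) = W k (x k) := by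
      ext z
      simp [TT]
    have h2 := hℋ (∅, {(k, x k)}) (by rw [h1]; exact h𝒰W k)
    rw [h1] at h2
    exact mem_of_superset h2 inter_subset_left
  have hℋD : D ∈ ℋ := by
    have h2 := hℋ (∅, ∅) (by rw [hTT0]; exact univ_mem)
    exact mem_of_superset h2 inter_subset_right
  have hℋc : ∀ a, Tendsto (fun z => ((φ a z : I) : ℝ)) ℋ (𝓝 (c a : ℝ)) := by
    intro a
    rw [tendsto_order]
    constructor
    · intro l hl
      obtain ⟨p, hp1, hp2⟩ := exists_rat_btwn hl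
      obtain ⟨q, hq1⟩ := exists_rat_gt (c a : ℝ)
      have h1 : TT W φ ({(a, p, q)}, ∅) ∈ 𝒰 := by
        have h2 : Tendsto (fun z => ((φ a z : I) : ℝ)) 𝒰 (𝓝 (c a : ℝ)) :=
          (continuous_subtype_val.tendsto _).comp (hc a)
        filter_upwards [h2.eventually (lt_mem_nhds hp2), h2.eventually (gt_mem_nhds hq1)]
          with z hz1 hz2
        simp [TT, hz1, hz2]
      filter_upwards [hℋ _ h1] with z hz
      have := hz.1.1 (a, p, q) (by simp)
      exact hp1.trans this.1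
    · intro l hl
      obtain ⟨q, hq1, hq2⟩ := exists_rat_btwn hl
      obtain ⟨p, hp1⟩ := exists_rat_lt (c a : ℝ)
      have h1 : TT W φ ({(a, p, q)}, ∅) ∈ 𝒰 := by
        have h2 : Tendsto (fun z => ((φ a z : I) : ℝ)) 𝒰 (𝓝 (c a : ℝ)) :=
          (continuous_subtype_val.tendsto _).comp (hc a)
        filter_upwards [h2.eventually (lt_mem_nhds hp1), h2.eventually (gt_mem_nhds hq1)]
          with z hz1 hz2
        simp [TT, hz1, hz2]
      filter_upwards [hℋ _ h1] with z hz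
      have := hz.1.1 (a, p, q) (by simp)
      exact this.2.trans hq2
  obtain ⟨y, hy⟩ := hWc ℋ hℋne fun k => ⟨x k, hℋW k⟩
  -- the values at `y`
  have hyc : ∀ a, (φ a y : ℝ) = c a := by
    intro a
    have h1 : (𝓝 y ⊓ ℋ).NeBot := hy
    have h2 : Tendsto (fun z => ((φ a z : I) : ℝ)) (𝓝 y ⊓ ℋ) (𝓝 (φ a y : ℝ)) :=
      ((hφc a).tendsto y).mono_left inf_le_left
    have h3 : Tendsto (fun z => ((φ a z : I) : ℝ)) (𝓝 y ⊓ ℋ) (𝓝 (c a : ℝ)) :=
      (hℋc a).mono_left inf_le_right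
    exact tendsto_nhds_unique h2 h3
  -- countable tightness
  obtain ⟨C, hCD, hCc, hyC⟩ := ht D y (hy.mem_closure_of_mem _ hℋD)
  have hidx : ∀ z : X, ∃ a, z ∈ C → z ∈ EE W φ a := by
    intro z
    by_cases hz : z ∈ C
    · obtain ⟨a, ha⟩ := mem_iUnion.mp (hCD hz)
      exact ⟨a, fun _ => ha⟩
    · obtain ⟨b, _⟩ := exists_gt_of_countable (s := (∅ : Set Om.{u})) countable_empty
      exact ⟨b, fun h => absurd h hz⟩
  choose idx hidx using hidx
  obtain ⟨b, hb⟩ := exists_gt_of_countable (hCc.image idx)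
  obtain ⟨a, haA, hba⟩ := exists_mem_ge hA b
  have hone : φ a y = 1 := by
    have hcl : IsClosed {z | φ a z = 1} := isClosed_eq (φ a).continuous continuous_const
    have hsub : C ⊆ {z | φ a z = 1} := by
      intro z hz
      refine (hφ a).1 z (EE_mono W φ ?_ (hidx z hz))
      exact (le_of_lt (hb _ (mem_image_of_mem _ hz))).trans hba
    exact closure_minimal hsub hcl hyC
  have h1 := hcA a haA
  rw [← hyc a, hone] at h1
  norm_num at h1

end Final

end Pool.Agent.Lib.MP_4ebb14_gt
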