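import Pool.Agent.Lib.MP_4ebb14_gt.Defs

/-!
# Sanity checks for the definitions
-/

open Set

namespace Pool.Agent.Lib.MP_4ebb14_gt

universe u

/-- Separable spaces satisfy `c(X) = ℵ₀`. -/
lemma ccc_of_separable (X : Type u) [TopologicalSpace X] [TopologicalSpace.SeparableSpace X] :
    CCC X := fun _ h𝒱 hd =>
  hd.countable_of_isOpen (fun V hV => (h𝒱 V hV).1) (fun V hV => (h𝒱 V hV).2)

/-- Compact Hausdorff spaces are Čech-complete. -/
lemma cechComplete_of_compact (X : Type u) [TopologicalSpace X] [CompactSpace X] [T2Space X] :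
    CechComplete X := by
  refine ⟨inferInstance, ?_⟩
  have h : range (stoneCechUnit : X → StoneCech X) = univ := by
    have h1 : IsClosed (range (stoneCechUnit : X → StoneCech X)) :=
      (isCompact_range continuous_stoneCechUnit).isClosed
    have h2 : closure (range (stoneCechUnit : X → StoneCech X)) = univ :=
      denseRange_stoneCechUnit.closure_range
    rwa [h1.closure_eq] at h2
  rw [h]
  exact IsGδ.univ

end Pool.Agent.Lib.MP_4ebb14_gt
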